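import Pool.Agent.Q205.Wand.Family

/-! Stably bounded points, unbounded orbits and oscillating orbits for families of flows. -/

set_option autoImplicit false

namespace Pool.Agent.H185.TO

open Filter Topology Set MeasureTheory Pool.Agent.Q205.Wand

/-- the orbit of `x` is outside of every compact set at arbitrarily large times -/
def Unbounded {X : Type*} [TopologicalSpace X] (φ : ℝ → X → X) (x : X) : Prop :=
  ∀ K : Set X, IsCompact K → ∀ T : ℝ, ∃ t, T < t ∧ φ t x ∉ K

/-- the orbit of `x` returns to every neighbourhood of `x`, and is outside of every compact set, at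
arbitrarily large times -/
def Oscillates {X : Type*} [TopologicalSpace X] (φ : ℝ → X → X) (x : X) : Prop :=
  Recurrent φ x ∧ Unbounded φ x

/-- `(f, x)` is stably bounded: for all parameters near `f` all orbits starting near `x` are in one
compact set for all times -/
def StablyBounded {𝓕 X : Type*} [TopologicalSpace 𝓕] [TopologicalSpace X] (Φ : FlowFamily 𝓕 X)
    (f : 𝓕) (x : X) : Prop :=
  ∃ 𝓥 : Set 𝓕, IsOpen 𝓥 ∧ f ∈ 𝓥 ∧ ∃ V : Set X, IsOpen V ∧ x ∈ V ∧ ∃ K : Set X, IsCompact K ∧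
    ∀ f' ∈ 𝓥, ∀ y ∈ V, ∀ t : ℝ, Φ.φ f' t y ∈ K

variable {𝓕 X : Type*} [TopologicalSpace 𝓕] [TopologicalSpace X] {φ : ℝ → X → X}

/-- the orbits starting near `x` are in a compact set from some time on -/
def NearBounded (φ : ℝ → X → X) (x : X) : Prop :=
  ∃ V : Set X, IsOpen V ∧ x ∈ V ∧ ∃ K : Set X, IsCompact K ∧ ∃ T : ℝ,
    ∀ y ∈ V, ∀ t, T < t → φ t y ∈ K

theorem full_of_forward [T2Space X] [MeasurableSpace X] [BorelSpace X] (h : IsFlow φ)
    (μ : Measure X) [IsFiniteMeasureOnCompacts μ] [μ.IsOpenPosMeasure]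
    (hμ : ∀ t, MeasurePreserving (φ t) μ μ) {V K : Set X} (hV : IsOpen V) (hK : IsCompact K)
    {T : ℝ} (hT : ∀ y ∈ V, ∀ t, T < t → φ t y ∈ K) : ∀ y ∈ V, ∀ t, φ t y ∈ K := by
  set A : Set X := {z | ∃ t, T < t ∧ φ (-t) z ∈ V} with hA
  have hAo : IsOpen A := by
    have : A = ⋃ t : {t : ℝ // T < t}, (φ (-t)) ⁻¹' V := by
      ext z
      simp only [hA, mem_setOf_eq, mem_iUnion, mem_preimage, Subtype.exists, exists_prop]
    rw [this]
    exact isOpen_iUnion fun t => hV.preimage (h.cont_t _)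
  have hAK : A ⊆ K := by
    rintro z ⟨t, ht, hz⟩
    have := hT _ hz t ht
    rwa [h.self_neg] at this
  have hfin : μ A ≠ ⊤ := ((measure_mono hAK).trans_lt hK.measure_lt_top).ne
  intro y hy r
  set s : ℝ := max 0 (T + 1 - r) with hs
  have hs0 : 0 ≤ s := le_max_left _ _
  have hs1 : T < s + r := by
    have : T + 1 - r ≤ s := le_max_right _ _
    linarith
  have hsub : A ⊆ φ s ⁻¹' A := by
    rintro z ⟨t, ht, hz⟩
    refine ⟨t + s, by linarith, ?_⟩
    rw [← h.add]
    have : -(t + s) + s = -t := by ring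
    rw [this]
    exact hz
  have hm : μ (φ s ⁻¹' A) = μ A := (hμ s).measure_preimage hAo.measurableSet.nullMeasurableSet
  have hdiff : μ (φ s ⁻¹' A \ A) = 0 := by
    rw [measure_diff hsub hAo.measurableSet.nullMeasurableSet hfin, hm, tsub_self]
  have hopen : IsOpen (φ s ⁻¹' A ∩ Kᶜ) :=
    (hAo.preimage (h.cont_t s)).inter hK.isClosed.isOpen_compl
  have hss : φ s ⁻¹' A ∩ Kᶜ ⊆ φ s ⁻¹' A \ A := fun z hz => ⟨hz.1, fun hzA => hz.2 (hAK hzA)⟩
  have hnull : μ (φ s ⁻¹' A ∩ Kᶜ) = 0 := measure_mono_null hss hdiff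
  have hemp := (hopen.measure_eq_zero_iff μ).1 hnull
  by_contra hno
  have : φ r y ∈ φ s ⁻¹' A ∩ Kᶜ := by
    refine ⟨⟨s + r, hs1, ?_⟩, hno⟩
    rw [← h.add, ← h.add]
    have : -(s + r) + s + r = 0 := by ring
    rw [this, h.zero]
    exact hy
  rw [hemp] at this
  exact this

theorem generic_bounded [LocallyCompactSpace X] [SecondCountableTopology X] [T2Space X]
    [MeasurableSpace X] [BorelSpace X] (Φ : FlowFamily 𝓕 X) (μ : 𝓕 → Measure X)
    [∀ f, IsFiniteMeasureOnCompacts (μ f)] [∀ f, (μ f).IsOpenPosMeasure]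
    (hμ : ∀ f t, MeasurePreserving (Φ.φ f t) (μ f) (μ f)) :
    ∀ᶠ f in residual 𝓕, ∀ x, NearBounded (Φ.φ f) x → StablyBounded Φ f x := by
  set ℬ := TopologicalSpace.countableBasis X
  haveI : Countable ℬ := (TopologicalSpace.countable_countableBasis X).to_subtype
  have hopen : ∀ B : ℬ, IsOpen (B : Set X) := fun B =>
    TopologicalSpace.isOpen_of_mem_countableBasis B.2
  let E : CompactExhaustion X := CompactExhaustion.choice X
  set O : ℬ × ℕ × ℕ → Set 𝓕 := fun a => {f | ∃ t : ℝ, (a.2.1 : ℝ) < t ∧ ∃ y ∈ (a.1 : Set X),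
    Φ.φ f t y ∈ (E a.2.2)ᶜ} with hO
  have hOo : ∀ a, IsOpen (O a) := by
    rintro ⟨B, n, m⟩
    have : O (B, n, m) = ⋃ t : {t : ℝ // (n : ℝ) < t}, ⋃ y : (B : Set X),
        (fun f => Φ.φ f t y) ⁻¹' (E m)ᶜ := by
      ext f
      simp only [hO, mem_setOf_eq, mem_iUnion, mem_preimage, Subtype.exists, exists_prop]
    rw [this]
    refine isOpen_iUnion fun t => isOpen_iUnion fun y =>
      (E.isCompact m).isClosed.isOpen_compl.preimage ?_
    exact Φ.cont.comp (by fun_prop : Continuous (fun f : 𝓕 => (f, (t : ℝ), (y : X))))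
  have hres : ∀ᶠ f in residual 𝓕, ∀ a : ℬ × ℕ × ℕ, f ∉ frontier (O a) := by
    rw [eventually_countable_forall]
    intro a
    have hd : Dense (frontier (O a))ᶜ := by
      have := interior_frontier (hOo a).isClosed_compl
      rw [frontier_compl] at this
      exact interior_eq_empty_iff_dense_compl.1 this
    exact residual_of_dense_open isClosed_frontier.isOpen_compl hd
  filter_upwards [hres] with f hf x hx
  obtain ⟨V, hV, hxV, K, hK, T, hT⟩ := hx
  obtain ⟨B, hB, hxB, hBV⟩ := (TopologicalSpace.isBasis_countableBasis X).mem_nhds_iff.1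
    (hV.mem_nhds hxV)
  obtain ⟨n, hn⟩ := exists_nat_ge T
  obtain ⟨m, hm⟩ := E.exists_superset_of_isCompact hK
  set a : ℬ × ℕ × ℕ := ((⟨B, hB⟩ : ℬ), n, m) with ha
  have hfn : f ∉ O a := by
    rintro ⟨t, ht, y, hy, hyt⟩
    exact hyt (hm (hT y (hBV hy) t (lt_of_le_of_lt hn ht)))
  have hcl : f ∉ closure (O a) := by
    intro hcl
    exact hf a ⟨hcl, by rwa [(hOo a).interior_eq]⟩
  refine ⟨(closure (O a))ᶜ, isClosed_closure.isOpen_compl, hcl, B,
    TopologicalSpace.isOpen_of_mem_countableBasis hB, hxB, E m, E.isCompact m, ?_⟩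
  intro f' hf'
  refine full_of_forward (Φ.isFlow f') (μ f') (hμ f')
    (TopologicalSpace.isOpen_of_mem_countableBasis hB) (E.isCompact m) (T := (n : ℝ)) ?_
  intro y hy t ht
  by_contra hno
  exact hf' (subset_closure ⟨t, ht, y, hy, hno⟩)

theorem residual_unbounded [LocallyCompactSpace X] [SecondCountableTopology X] [T2Space X]
    (h : IsFlow φ) {U : Set X} (hU : IsOpen U) (hnb : ∀ x ∈ U, ¬ NearBounded φ x) :
    ∀ᶠ x in residual X, x ∈ U → Unbounded φ x := by
  let E : CompactExhaustion X := CompactExhaustion.choice X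
  have key : ∀ a : ℕ × ℕ, ∀ᶠ x in residual X, x ∈ U → ∃ t : ℝ, (a.1 : ℝ) < t ∧ φ t x ∉ E a.2 := by
    rintro ⟨n, m⟩
    set D : Set X := {x | ∃ t : ℝ, (n : ℝ) < t ∧ φ t x ∈ (E m)ᶜ} with hD
    have hDo : IsOpen D := by
      have : D = ⋃ t : {t : ℝ // (n : ℝ) < t}, (φ t) ⁻¹' (E m)ᶜ := by
        ext z
        simp only [hD, mem_setOf_eq, mem_iUnion, mem_preimage, Subtype.exists, exists_prop]
      rw [this]
      exact isOpen_iUnion fun t => (E.isCompact m).isClosed.isOpen_compl.preimage (h.cont_t _)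
    have hdense : Dense (D ∩ U ∪ (closure U)ᶜ) := by
      rw [dense_iff_inter_open]
      intro W hW hWn
      by_cases hWU : (W ∩ U).Nonempty
      · obtain ⟨x, hxW, hxU⟩ := hWU
        by_contra hno
        rw [Set.not_nonempty_iff_eq_empty] at hno
        apply hnb x hxU
        refine ⟨W ∩ U, hW.inter hU, ⟨hxW, hxU⟩, E m, E.isCompact m, n, ?_⟩
        intro y hy t ht
        by_contra hyt
        have : y ∈ W ∩ (D ∩ U ∪ (closure U)ᶜ) := ⟨hy.1, Or.inl ⟨⟨t, ht, hyt⟩, hy.2⟩⟩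
        rw [hno] at this
        exact this
      · obtain ⟨x, hx⟩ := hWn
        refine ⟨x, hx, Or.inr ?_⟩
        intro hxc
        exact hWU (mem_closure_iff.1 hxc W hW hx)
    have ho : IsOpen (D ∩ U ∪ (closure U)ᶜ) :=
      (hDo.inter hU).union isClosed_closure.isOpen_compl
    filter_upwards [residual_of_dense_open ho hdense] with x hx hxU
    rcases hx with hx | hx
    · obtain ⟨t, ht, hxt⟩ := hx.1
      exact ⟨t, ht, hxt⟩
    · exact absurd (subset_closure hxU) hx
  filter_upwards [eventually_countable_forall.2 key] with x hx hxU K hK T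
  obtain ⟨n, hn⟩ := exists_nat_ge T
  obtain ⟨m, hm⟩ := E.exists_superset_of_isCompact hK
  obtain ⟨t, ht, hxt⟩ := hx (n, m) hxU
  exact ⟨t, lt_of_le_of_lt hn ht, fun hK' => hxt (hm hK')⟩

theorem isOpen_stablyBounded (Φ : FlowFamily 𝓕 X) (f : 𝓕) :
    IsOpen {x : X | StablyBounded Φ f x} := by
  rw [isOpen_iff_mem_nhds]
  rintro x ⟨𝓥, h𝓥, hf, V, hV, hx, K, hK, hT⟩
  filter_upwards [hV.mem_nhds hx] with z hz
  exact ⟨𝓥, h𝓥, hf, V, hV, hz, K, hK, hT⟩

/-- for generic parameters the generic point is stably bounded or unbounded in both directions -/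
theorem generic_dichotomy [LocallyCompactSpace X] [SecondCountableTopology X] [T2Space X]
    [MeasurableSpace X] [BorelSpace X] (Φ : FlowFamily 𝓕 X) (μ : 𝓕 → Measure X)
    [∀ f, IsFiniteMeasureOnCompacts (μ f)] [∀ f, (μ f).IsOpenPosMeasure]
    (hμ : ∀ f t, MeasurePreserving (Φ.φ f t) (μ f) (μ f)) :
    ∀ᶠ f in residual 𝓕, ∀ᶠ x in residual X, StablyBounded Φ f x ∨
      (Unbounded (Φ.φ f) x ∧ Unbounded (rev (Φ.φ f)) x) := by
  filter_upwards [generic_bounded Φ μ hμ] with f hf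
  set S : Set X := {x : X | StablyBounded Φ f x} with hS
  have hSo : IsOpen S := isOpen_stablyBounded Φ f
  have hUo : IsOpen (closure S)ᶜ := isClosed_closure.isOpen_compl
  have h1 : ∀ x ∈ (closure S)ᶜ, ¬ NearBounded (Φ.φ f) x := fun x hx hnb =>
    hx (subset_closure (hf x hnb))
  have h2 : ∀ x ∈ (closure S)ᶜ, ¬ NearBounded (rev (Φ.φ f)) x := by
    rintro x hx ⟨V, hV, hxV, K, hK, T, hT⟩
    have hfull := full_of_forward (Φ.isFlow f).rev (μ f) (fun t => hμ f (-t)) hV hK hT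
    refine h1 x hx ⟨V, hV, hxV, K, hK, 0, fun y hy t _ => ?_⟩
    have := hfull y hy (-t)
    simpa [Pool.Agent.Q205.Wand.rev] using this
  have hfr : ∀ᶠ x in residual X, x ∉ frontier S := by
    have hd : Dense (frontier S)ᶜ := by
      have := interior_frontier hSo.isClosed_compl
      rw [frontier_compl] at this
      exact interior_eq_empty_iff_dense_compl.1 this
    exact residual_of_dense_open isClosed_frontier.isOpen_compl hd
  filter_upwards [residual_unbounded (Φ.isFlow f) hUo h1,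
    residual_unbounded (Φ.isFlow f).rev hUo h2, hfr] with x hx1 hx2 hx3
  by_cases hxS : x ∈ S
  · exact Or.inl hxS
  · right
    have hxc : x ∈ (closure S)ᶜ := by
      intro hxc
      exact hx3 ⟨hxc, by rwa [hSo.interior_eq]⟩
    exact ⟨hx1 hxc, hx2 hxc⟩

end Pool.Agent.H185.TO
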