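import Pool.Agent.H185.TO.Alt

/-! Metric version: the measure of the set of the orbits which stay in a compact set. -/

set_option autoImplicit false

namespace Pool.Agent.H185.TO

open Filter Topology Set MeasureTheory Pool.Agent.Q205.Wand

/-- the points whose whole orbit is in `K` -/
def Stay {X : Type*} (φ : ℝ → X → X) (K : Set X) : Set X := {x | ∀ t : ℝ, φ t x ∈ K}

variable {𝓕 X : Type*} [TopologicalSpace 𝓕] [TopologicalSpace X] {φ : ℝ → X → X}

theorem stay_rev (φ : ℝ → X → X) (K : Set X) : Stay (rev φ) K = Stay φ K := by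
  ext x
  constructor
  · intro h t
    have := h (-t)
    simpa [Pool.Agent.Q205.Wand.rev] using this
  · intro h t
    exact h (-t)

theorem isClosed_inter_times (h : IsFlow φ) {K : Set X} (hK : IsClosed K) (S : Set ℝ) :
    IsClosed {x | ∀ t ∈ S, φ t x ∈ K} := by
  have : {x | ∀ t ∈ S, φ t x ∈ K} = ⋂ t : S, (φ t) ⁻¹' K := by
    ext x
    simp
  rw [this]
  exact isClosed_iInter fun t => hK.preimage (h.cont_t _)

/-- almost every orbit which is in `K` from some time on is in `K` at all times -/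
theorem eventually_stay [T2Space X] [MeasurableSpace X] [BorelSpace X] (h : IsFlow φ)
    (μ : Measure X) [IsFiniteMeasureOnCompacts μ] (hμ : ∀ t, MeasurePreserving (φ t) μ μ)
    {K : Set X} (hK : IsCompact K) :
    ∀ᵐ x ∂μ, (∃ T : ℝ, ∀ t, T < t → φ t x ∈ K) → x ∈ Stay φ K := by
  set A : Set X := {x | ∀ t ∈ Set.Ici (0 : ℝ), φ t x ∈ K} with hA
  have hAc : IsClosed A := isClosed_inter_times h hK.isClosed _
  have hAK : A ⊆ K := by
    intro x hx
    have := hx 0 (Set.mem_Ici.2 le_rfl)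
    rwa [h.zero] at this
  have hfin : μ A ≠ ⊤ := ((measure_mono hAK).trans_lt hK.measure_lt_top).ne
  have hnull : ∀ n : ℕ, μ (φ (n : ℝ) ⁻¹' A \ A) = 0 := by
    intro n
    have hsub : A ⊆ φ (n : ℝ) ⁻¹' A := by
      intro x hx t ht
      rw [← h.add]
      refine hx _ ?_
      have h1 : (0 : ℝ) ≤ t := ht
      have h2 : (0 : ℝ) ≤ n := n.cast_nonneg
      exact Set.mem_Ici.2 (by linarith)
    rw [measure_sdiff hsub hAc.measurableSet.nullMeasurableSet hfin,
      (hμ n).measure_preimage hAc.measurableSet.nullMeasurableSet, tsub_self]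
  have hall : ∀ᵐ x ∂μ, ∀ (m : ℤ) (n : ℕ), φ (m : ℝ) x ∉ φ (n : ℝ) ⁻¹' A \ A := by
    rw [ae_all_iff]
    intro m
    rw [ae_all_iff]
    intro n
    have h1 : ∀ᵐ y ∂μ, y ∉ φ (n : ℝ) ⁻¹' A \ A := measure_eq_zero_iff_ae_notMem.1 (hnull n)
    exact (hμ m).quasiMeasurePreserving.ae h1
  filter_upwards [hall] with x hx hT t₀
  obtain ⟨T, hT⟩ := hT
  set m : ℤ := ⌊t₀⌋ with hm
  obtain ⟨n, hn⟩ := exists_nat_gt (T - m)
  have h1 : φ (m : ℝ) x ∈ φ (n : ℝ) ⁻¹' A := by
    intro t ht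
    rw [← h.add, ← h.add]
    refine hT _ ?_
    have h1 : (0 : ℝ) ≤ t := ht
    linarith
  have h2 : φ (m : ℝ) x ∈ A := by
    by_contra hno
    exact hx m n ⟨h1, hno⟩
  have h3 := h2 (t₀ - m) (Set.mem_Ici.2 (sub_nonneg.2 (Int.floor_le t₀)))
  rw [← h.add] at h3
  have : t₀ - (m : ℝ) + m = t₀ := by ring
  rwa [this] at h3

/-- the measure of the orbits staying in `K` is upper semicontinuous in the parameter -/
theorem isOpen_stay_lt [LocallyCompactSpace X] [SecondCountableTopology X] [T2Space X]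
    [MeasurableSpace X] [BorelSpace X] (Φ : FlowFamily 𝓕 X) (μ : Measure X)
    [IsFiniteMeasureOnCompacts μ] {K : Set X} (hK : IsCompact K) (c : ENNReal) :
    IsOpen {f : 𝓕 | μ (Stay (Φ.φ f) K) < c} := by
  rw [isOpen_iff_mem_nhds]
  intro f hf
  have h := Φ.isFlow f
  set S : ℕ → Set X := fun n => {x | ∀ t ∈ Set.Icc (-(n : ℝ)) n, Φ.φ f t x ∈ K} with hS
  have hSc : ∀ n, IsClosed (S n) := fun n => isClosed_inter_times h hK.isClosed _
  have hSK : ∀ n, S n ⊆ K := by
    intro n x hx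
    have h2 : (0 : ℝ) ≤ n := n.cast_nonneg
    have := hx 0 ⟨by linarith, h2⟩
    rwa [h.zero] at this
  have hanti : Antitone S := by
    intro n m hnm x hx t ht
    have h2 : (n : ℝ) ≤ m := by exact_mod_cast hnm
    exact hx t ⟨by linarith [ht.1], by linarith [ht.2]⟩
  have hInter : (⋂ n, S n) = Stay (Φ.φ f) K := by
    ext x
    rw [Set.mem_iInter]
    constructor
    · intro hx t
      obtain ⟨n, hn⟩ := exists_nat_ge |t|
      exact hx n t (abs_le.1 hn)
    · intro hx n t _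
      exact hx t
  have hlim := tendsto_measure_iInter_atTop (μ := μ) (s := S)
    (fun n => (hSc n).measurableSet.nullMeasurableSet) hanti
    ⟨0, ((measure_mono (hSK 0)).trans_lt hK.measure_lt_top).ne⟩
  rw [hInter] at hlim
  obtain ⟨n, hn⟩ := (hlim.eventually (gt_mem_nhds hf)).exists
  have hn' : μ (S n) < c := hn
  obtain ⟨O, hSO, hO, hOc⟩ :=
    (hK.of_isClosed_subset (hSc n) (hSK n)).exists_isOpen_lt_of_lt c hn'
  set Z : Set (𝓕 × X) := {z | ∃ t ∈ Set.Icc (-(n : ℝ)) n, Φ.φ z.1 t z.2 ∉ K} with hZ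
  have hZo : IsOpen Z := by
    have : Z = ⋃ t : Set.Icc (-(n : ℝ)) n, (fun z : 𝓕 × X => Φ.φ z.1 t z.2) ⁻¹' Kᶜ := by
      ext z
      simp [hZ]
    rw [this]
    refine isOpen_iUnion fun t => hK.isClosed.isOpen_compl.preimage ?_
    exact Φ.cont.comp (by fun_prop : Continuous (fun z : 𝓕 × X => (z.1, (t : ℝ), z.2)))
  have hsub : ({f} : Set 𝓕) ×ˢ (K \ O) ⊆ Z := by
    rintro ⟨f', x⟩ ⟨hf', hx⟩
    rw [Set.mem_singleton_iff] at hf'
    have hxS : x ∉ S n := fun hxS => hx.2 (hSO hxS)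
    simp only [hS, Set.mem_setOf_eq, not_forall] at hxS
    obtain ⟨t, ht, hxt⟩ := hxS
    refine ⟨t, ht, ?_⟩
    simp only at hf' ⊢
    rw [hf']
    exact hxt
  obtain ⟨u, v, hu, _, hfu, hv, huv⟩ := generalized_tube_lemma isCompact_singleton
    (hK.diff hO) hZo hsub
  filter_upwards [hu.mem_nhds (hfu rfl)] with f' hf'
  refine (measure_mono ?_).trans_lt hOc
  intro x hx
  by_contra hxO
  have hxK : x ∈ K := by
    have := hx 0
    rwa [Φ.zero] at this
  obtain ⟨t, _, ht⟩ := huv (Set.mk_mem_prod hf' (hv ⟨hxK, hxO⟩))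
  exact ht (hx t)

theorem generic_continuousAt {g : 𝓕 → ENNReal} (hg : ∀ c, IsOpen {f | g f < c}) :
    ∀ᶠ f in residual 𝓕, ContinuousAt g f := by
  have hres : ∀ᶠ f in residual 𝓕, ∀ q : ℚ,
      f ∉ frontier {f : 𝓕 | g f < ((Real.toNNReal q : NNReal) : ENNReal)} := by
    rw [eventually_countable_forall]
    intro q
    have hd : Dense (frontier {f : 𝓕 | g f < ((Real.toNNReal q : NNReal) : ENNReal)})ᶜ := by
      have := interior_frontier (hg ((Real.toNNReal q : NNReal) : ENNReal)).isClosed_compl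
      rw [frontier_compl] at this
      exact interior_eq_empty_iff_dense_compl.1 this
    exact residual_of_dense_open isClosed_frontier.isOpen_compl hd
  filter_upwards [hres] with f hf
  refine tendsto_order.2 ⟨?_, ?_⟩
  · intro a ha
    obtain ⟨q, _, hq1, hq2⟩ := ENNReal.lt_iff_exists_rat_btwn.1 ha
    have hfq : f ∉ {f : 𝓕 | g f < ((Real.toNNReal q : NNReal) : ENNReal)} :=
      fun hlt => absurd hq2 (not_lt.2 (le_of_lt hlt))
    have hcl : f ∉ closure {f : 𝓕 | g f < ((Real.toNNReal q : NNReal) : ENNReal)} := by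
      intro hcl
      exact hf q ⟨hcl, by rwa [(hg _).interior_eq]⟩
    filter_upwards [isClosed_closure.isOpen_compl.mem_nhds hcl] with f' hf'
    have : ¬ g f' < ((Real.toNNReal q : NNReal) : ENNReal) := fun h => hf' (subset_closure h)
    exact lt_of_lt_of_le hq1 (not_lt.1 this)
  · intro b hb
    exact (hg b).mem_nhds hb

theorem unbounded_of_null [LocallyCompactSpace X] [SecondCountableTopology X] [T2Space X]
    [MeasurableSpace X] [BorelSpace X] (h : IsFlow φ) (μ : Measure X)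
    [IsFiniteMeasureOnCompacts μ] (hμ : ∀ t, MeasurePreserving (φ t) μ μ)
    (E : CompactExhaustion X) (hE : ∀ n, μ (Stay φ (E n)) = 0) : ∀ᵐ x ∂μ, Unbounded φ x := by
  have h1 : ∀ᵐ x ∂μ, ∀ n, (∃ T : ℝ, ∀ t, T < t → φ t x ∈ E n) → x ∈ Stay φ (E n) :=
    ae_all_iff.2 fun n => eventually_stay h μ hμ (E.isCompact n)
  have h2 : ∀ᵐ x ∂μ, ∀ n, x ∉ Stay φ (E n) :=
    ae_all_iff.2 fun n => measure_eq_zero_iff_ae_notMem.1 (hE n)
  filter_upwards [h1, h2] with x hx1 hx2 K hK T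
  obtain ⟨n, hn⟩ := E.exists_superset_of_isCompact hK
  by_contra hno
  push Not at hno
  exact hx2 n (hx1 n ⟨T, fun t ht => hn (hno t ht)⟩)

end Pool.Agent.H185.TO
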