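import Pool.Agent.Q205.Wand.Family

/-! Dense orbits for flows without wandering points, generic transitivity. -/

set_option autoImplicit false

namespace Pool.Agent.H185.TO

open Filter Topology Set MeasureTheory Pool.Agent.Q205.Wand

/-- the orbit of `x` after every time `T` is dense -/
def DenseOrbit {X : Type*} [TopologicalSpace X] (φ : ℝ → X → X) (x : X) : Prop :=
  ∀ T : ℝ, Dense {y : X | ∃ t, T < t ∧ φ t x = y}

/-- `U` and `W` are connected by an orbit of `φ` (in some direction of time) -/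
def Meets {X : Type*} (φ : ℝ → X → X) (U W : Set X) : Prop := ∃ t : ℝ, ∃ x ∈ U, φ t x ∈ W

variable {𝓕 X : Type*} [TopologicalSpace 𝓕] [TopologicalSpace X] {φ : ℝ → X → X}

theorem late_of_meets (h : IsFlow φ) (hw : ∀ x, ¬ Wandering φ x) {U W : Set X} (hU : IsOpen U)
    (hW : IsOpen W) (hm : Meets φ U W) (T : ℝ) : ∃ t, T < t ∧ ∃ x ∈ U, φ t x ∈ W := by
  obtain ⟨t₀, x₀, hx₀, hx₁⟩ := hm
  have hV : IsOpen (U ∩ φ t₀ ⁻¹' W) := hU.inter (hW.preimage (h.cont_t t₀))
  by_contra hno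
  push Not at hno
  apply hw x₀
  refine ⟨U ∩ φ t₀ ⁻¹' W, hV, ⟨hx₀, hx₁⟩, T - t₀, ?_⟩
  intro t ht y hy hyt
  have h1 := hyt.2
  rw [mem_preimage, ← h.add] at h1
  exact hno (t₀ + t) (by linarith) y hy.1 h1

theorem residual_denseOrbit [SecondCountableTopology X]
    (hlate : ∀ U W : Set X, IsOpen U → U.Nonempty → IsOpen W → W.Nonempty → ∀ T : ℝ,
      ∃ t, T < t ∧ ∃ x ∈ U, φ t x ∈ W) (hc : ∀ t, Continuous (φ t)) :
    ∀ᶠ x in residual X, DenseOrbit φ x := by
  set ℬ := TopologicalSpace.countableBasis X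
  haveI : Countable ℬ := (TopologicalSpace.countable_countableBasis X).to_subtype
  have key : ∀ a : ℬ × ℕ, ∀ᶠ x in residual X, ∃ t : ℝ, (a.2 : ℝ) < t ∧ φ t x ∈ (a.1 : Set X) := by
    rintro ⟨B, n⟩
    have hBo : IsOpen (B : Set X) := TopologicalSpace.isOpen_of_mem_countableBasis B.2
    have hBn : (B : Set X).Nonempty := TopologicalSpace.nonempty_of_mem_countableBasis B.2
    refine residual_of_dense_open (s := {x | ∃ t : ℝ, (n : ℝ) < t ∧ φ t x ∈ (B : Set X)}) ?_ ?_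
    · have : {x | ∃ t : ℝ, (n : ℝ) < t ∧ φ t x ∈ (B : Set X)} =
          ⋃ t : {t : ℝ // (n : ℝ) < t}, (φ t) ⁻¹' (B : Set X) := by
        ext z
        simp
      rw [this]
      exact isOpen_iUnion fun t => hBo.preimage (hc _)
    · rw [dense_iff_inter_open]
      intro O hO hOn
      obtain ⟨t, ht, x, hx, hxt⟩ := hlate O B hO hOn hBo hBn n
      exact ⟨x, hx, t, ht, hxt⟩
  filter_upwards [eventually_countable_forall.2 key] with x hx T
  rw [dense_iff_inter_open]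
  intro O hO hOn
  obtain ⟨y, hy⟩ := hOn
  obtain ⟨B, hB, hyB, hBO⟩ := (TopologicalSpace.isBasis_countableBasis X).mem_nhds_iff.1
    (hO.mem_nhds hy)
  obtain ⟨n, hn⟩ := exists_nat_ge T
  obtain ⟨t, ht, hxt⟩ := hx (⟨B, hB⟩, n)
  exact ⟨φ t x, hBO hxt, t, lt_of_le_of_lt hn ht, rfl⟩

theorem dense_both [SecondCountableTopology X] (h : IsFlow φ) (hw : ∀ x, ¬ Wandering φ x)
    (hm : ∀ U W : Set X, IsOpen U → U.Nonempty → IsOpen W → W.Nonempty → Meets φ U W) :
    ∀ᶠ x in residual X, DenseOrbit φ x ∧ DenseOrbit (rev φ) x := by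
  have h1 : ∀ᶠ x in residual X, DenseOrbit φ x :=
    residual_denseOrbit (fun U W hU hUn hW hWn T =>
      late_of_meets h hw hU hW (hm U W hU hUn hW hWn) T) h.cont_t
  have h2 : ∀ᶠ x in residual X, DenseOrbit (rev φ) x := by
    refine residual_denseOrbit (fun U W hU hUn hW hWn T => ?_) h.rev.cont_t
    obtain ⟨t, ht, y, hy, hyt⟩ := late_of_meets h hw hW hU (hm W U hW hWn hU hUn) T
    refine ⟨t, ht, φ t y, hyt, ?_⟩
    show φ (-t) (φ t y) ∈ W
    rw [h.neg_self]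
    exact hy
  exact h1.and h2

theorem generic_meets [SecondCountableTopology X] (Φ : FlowFamily 𝓕 X) {𝓦 : Set 𝓕}
    (h𝓦 : IsOpen 𝓦) (hcond : ∀ 𝓥 : Set 𝓕, IsOpen 𝓥 → 𝓥.Nonempty → 𝓥 ⊆ 𝓦 → ∀ U W : Set X,
      IsOpen U → U.Nonempty → IsOpen W → W.Nonempty → ∃ f ∈ 𝓥, Meets (Φ.φ f) U W) :
    ∀ᶠ f in residual 𝓕, f ∈ 𝓦 → ∀ U W : Set X, IsOpen U → U.Nonempty → IsOpen W →
      W.Nonempty → Meets (Φ.φ f) U W := by
  set ℬ := TopologicalSpace.countableBasis X
  haveI : Countable ℬ := (TopologicalSpace.countable_countableBasis X).to_subtype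
  have key : ∀ a : ℬ × ℬ, ∀ᶠ f in residual 𝓕, f ∈ 𝓦 → Meets (Φ.φ f) a.1 a.2 := by
    rintro ⟨B, B'⟩
    have hBo : IsOpen (B : Set X) := TopologicalSpace.isOpen_of_mem_countableBasis B.2
    have hBn : (B : Set X).Nonempty := TopologicalSpace.nonempty_of_mem_countableBasis B.2
    have hBo' : IsOpen (B' : Set X) := TopologicalSpace.isOpen_of_mem_countableBasis B'.2
    have hBn' : (B' : Set X).Nonempty := TopologicalSpace.nonempty_of_mem_countableBasis B'.2
    set D : Set 𝓕 := {f | Meets (Φ.φ f) B B'} with hD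
    have hDo : IsOpen D := by
      have : D = ⋃ t : ℝ, ⋃ y : (B : Set X), (fun f => Φ.φ f t y) ⁻¹' (B' : Set X) := by
        ext f
        simp [hD, Meets]
      rw [this]
      refine isOpen_iUnion fun t => isOpen_iUnion fun y => hBo'.preimage ?_
      exact Φ.cont.comp (by fun_prop : Continuous (fun f : 𝓕 => (f, t, (y : X))))
    have hdense : Dense (D ∪ (closure 𝓦)ᶜ) := by
      rw [dense_iff_inter_open]
      intro V hV hVn
      by_cases hVW : (V ∩ 𝓦).Nonempty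
      · obtain ⟨f, hf, hfm⟩ := hcond (V ∩ 𝓦) (hV.inter h𝓦) hVW Set.inter_subset_right B B'
          hBo hBn hBo' hBn'
        exact ⟨f, hf.1, Or.inl hfm⟩
      · obtain ⟨x, hx⟩ := hVn
        refine ⟨x, hx, Or.inr ?_⟩
        intro hxc
        exact hVW (mem_closure_iff.1 hxc V hV hx)
    filter_upwards [residual_of_dense_open (hDo.union isClosed_closure.isOpen_compl) hdense]
      with f hf hf𝓦
    rcases hf with hf | hf
    · exact hf
    · exact absurd (subset_closure hf𝓦) hf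
  filter_upwards [eventually_countable_forall.2 key] with f hf hf𝓦 U W hU hUn hW hWn
  obtain ⟨x, hx⟩ := hUn
  obtain ⟨y, hy⟩ := hWn
  obtain ⟨B, hB, _, hBU⟩ := (TopologicalSpace.isBasis_countableBasis X).mem_nhds_iff.1
    (hU.mem_nhds hx)
  obtain ⟨B', hB', _, hBW⟩ := (TopologicalSpace.isBasis_countableBasis X).mem_nhds_iff.1
    (hW.mem_nhds hy)
  obtain ⟨t, z, hz, hzt⟩ := hf (⟨B, hB⟩, ⟨B', hB'⟩) hf𝓦
  exact ⟨t, z, hBU hz, hBW hzt⟩

end Pool.Agent.H185.TO
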